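import Pool.Agent.helper51.QS.SpecA
import Pool.Agent.helper13.PC.ASA

set_option autoImplicit false

namespace Pool.Agent.QS

open Pool.Agent.PC MvPolynomial

universe u

theorem WLG_prod {K : Type u} [Field K] {v : K → ℤ} (hv : DVal v) {n : ℕ} (y : Fin n → K)
    (w : Fin n → ℤ) (h : ∀ i, y i ≠ 0 ∧ v (y i) = w i) (s : Finset (Fin n)) :
    v (∏ i ∈ s, y i) = ∑ i ∈ s, w i := by
  classical
  induction s using Finset.induction_on with
  | empty => rw [Finset.prod_empty, Finset.sum_empty, ASA_v1 hv]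
  | insert a s ha ih =>
    rw [Finset.prod_insert ha, Finset.sum_insert ha, hv.mul _ _ (h a).1
      (Finset.prod_ne_zero_iff.2 fun i _ => (h i).1), ih, (h a).2]

theorem WLG_det {K : Type u} [Field K] {v : K → ℤ} (hv : DVal v) {n : ℕ}
    (M : Matrix (Fin n) (Fin n) K) (h : ∀ i j, Ge v 0 (M i j)) : Ge v 0 M.det := by
  rw [Matrix.det_apply]
  apply ASA_Gsum hv
  intro σ _
  have h1 : Ge v 0 (∏ i, M (σ i) i) := by
    apply Finset.prod_induction _ (Ge v 0)
    · intro a b ha hb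
      have := ASA_Gmul hv ha hb
      rwa [add_zero] at this
    · right
      rw [ASA_v1 hv]
    · intro i _
      exact h _ _
  rcases Int.units_eq_one_or (Equiv.Perm.sign σ) with h2 | h2
  · rw [h2, one_smul]
    exact h1
  · rw [h2, Units.neg_smul, one_smul]
    exact ASA_Gneg hv h1

theorem WLG : WLG_stmt.{u} := by
  intro k K _ _ _ n v D y w hv hy hD f hf
  have hM : ∀ i j, Ge v 0 ((f i)⁻¹ * (y j * D j (f i))) := by
    intro i j
    have h1 := hD j (f i) (v (f i)) (Or.inr le_rfl)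
    have h2 : Ge v (-(v (f i))) (f i)⁻¹ := Or.inr (by rw [ASA_inv hv (hf i)])
    have h3 := ASA_Gmul hv h2 h1
    rwa [neg_add_cancel] at h3
  have hdet := WLG_det hv (Matrix.of fun i j => (f i)⁻¹ * (y j * D j (f i))) hM
  have e1 : (Matrix.of fun i j => (f i)⁻¹ * (y j * D j (f i))).det =
      (∏ i, (f i)⁻¹) * ((∏ i, y i) * JJ D f) := by
    unfold JJ
    have h1 := Matrix.det_mul_column (fun i => (f i)⁻¹)
      (Matrix.of fun i j => y j * D j (f i))
    have h2 := Matrix.det_mul_row y (Matrix.of fun i j => D j (f i))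
    simp only [Matrix.of_apply] at h1 h2
    rw [h1, h2]
  rw [e1] at hdet
  have hy0 : ∏ i, y i ≠ 0 := Finset.prod_ne_zero_iff.2 fun i _ => (hy i).1
  have hf0 : ∏ i, f i ≠ 0 := Finset.prod_ne_zero_iff.2 fun i _ => hf i
  have h4 : Ge v (-∑ i, w i) (∏ i, y i)⁻¹ := by
    right
    rw [ASA_inv hv hy0, WLG_prod hv y w hy]
  have h5 := ASA_Gmul hv h4 hdet
  rw [add_zero] at h5
  have e2 : JJ D f / ∏ i, f i = (∏ i, y i)⁻¹ * ((∏ i, (f i)⁻¹) * ((∏ i, y i) * JJ D f)) := by
    rw [Finset.prod_inv_distrib]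
    field_simp
  rw [e2]
  exact h5

end Pool.Agent.QS
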