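import Pool.Agent.helper4.QS.Spec

/-!
# QS: module GEO (centered sums)
-/

open scoped BigOperators

namespace Pool.Agent.QS

open Pool.Agent.helper86.CM

noncomputable section

/-- `x^|e| ≤ x^e + x^(-e)`. -/
theorem GEO_abs {x : ℝ} (hx : 0 < x) (e : ℤ) : x ^ e.natAbs ≤ x ^ e + x ^ (-e) := by
  have h1 : 0 < x ^ e := zpow_pos hx e
  have h2 : 0 < x ^ (-e) := zpow_pos hx (-e)
  have h3 : (x : ℝ) ^ e.natAbs = x ^ ((e.natAbs : ℕ) : ℤ) := (zpow_natCast x _).symm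
  rw [h3, Int.natCast_natAbs]
  rcases abs_choice e with h | h
  · rw [h]; linarith
  · rw [h]; linarith

theorem GEO_geo1 {x : ℝ} (hx : 2 ≤ x) (J : ℕ) :
    ∑ j ∈ Finset.range (J + 1), x ^ j ≤ 2 * x ^ J := by
  induction J with
  | zero => simp
  | succ J ih =>
    rw [Finset.sum_range_succ]
    have h0 : 0 < x ^ J := by positivity
    have h1 : x ^ (J + 1) = x * x ^ J := by ring
    rw [h1]
    nlinarith

theorem GEO_geo2 {x : ℝ} (hx : 2 ≤ x) (J : ℕ) :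
    ∑ j ∈ Finset.range (J + 1), (x⁻¹) ^ j ≤ 2 - (x⁻¹) ^ J := by
  have hx0 : (0 : ℝ) < x := by linarith
  have hx1 : x⁻¹ ≤ 1 / 2 := by
    rw [inv_le_comm₀ hx0 (by norm_num)]
    norm_num
    exact hx
  have hx2 : 0 < x⁻¹ := inv_pos.mpr hx0
  induction J with
  | zero => norm_num
  | succ J ih =>
    rw [Finset.sum_range_succ]
    have h0 : 0 < (x⁻¹) ^ J := by positivity
    have h1 : (x⁻¹) ^ (J + 1) = x⁻¹ * (x⁻¹) ^ J := by ring
    rw [h1]
    nlinarith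

/-- GEO. -/
theorem GEO (hL : LUL_stmt) (hN : NRM_stmt) : GEO_stmt := by
  intro B t hB
  obtain ⟨C0, hC0, hC⟩ := hN B t hB
  have hl := (hL t hB.lt).1.1
  set l := lam t with hldef
  have hl0 : (0 : ℝ) < l := by linarith
  refine ⟨16 * C0 ^ 2, by nlinarith, ?_⟩
  intro s J hs hJ
  obtain ⟨J', rfl⟩ : ∃ J', J = J' + 1 := ⟨J - 1, by omega⟩
  simp only [Nat.add_sub_cancel]
  set M : ℕ := s * J' with hM
  set c : ℕ := M / 2 with hc
  refine ⟨(c : ℤ), ?_⟩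
  intro R n hR hn
  have hcM : c ≤ M := Nat.div_le_self _ _
  have hc2 : 2 * (M - c) ≤ M + 1 := by omega
  have hcc : c ≤ M - c := by omega
  -- the norm of the sum
  have h1 : ‖pw B (-(c : ℤ)) (∑ j ∈ Finset.range (J' + 1), pw B ((s * j : ℕ) : ℤ) (n j))‖ ≤
      ∑ j ∈ Finset.range (J' + 1), C0 * R * (l ^ (((s * j : ℕ) : ℤ) - c) + l ^ (-(((s * j : ℕ) : ℤ) - c))) := by
    rw [map_sum]
    refine (norm_sum_le _ _).trans (Finset.sum_le_sum fun j hj => ?_)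
    rw [← pw_add]
    have e1 : (-(c : ℤ) + ((s * j : ℕ) : ℤ)) = ((s * j : ℕ) : ℤ) - c := by ring
    rw [e1]
    have hj' := hn j (Finset.mem_range.mp hj)
    have h2 := hC (((s * j : ℕ) : ℤ) - c) (n j)
    have h3 := GEO_abs hl0 (((s * j : ℕ) : ℤ) - c)
    have h4 : 0 ≤ l ^ ((((s * j : ℕ) : ℤ) - c).natAbs) := by positivity
    calc ‖pw B (((s * j : ℕ) : ℤ) - c) (n j)‖
        ≤ C0 * l ^ ((((s * j : ℕ) : ℤ) - c).natAbs) * ‖n j‖ := h2
      _ ≤ C0 * l ^ ((((s * j : ℕ) : ℤ) - c).natAbs) * R := by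
          apply mul_le_mul_of_nonneg_left hj'
          positivity
      _ = C0 * R * l ^ ((((s * j : ℕ) : ℤ) - c).natAbs) := by ring
      _ ≤ _ := by
          apply mul_le_mul_of_nonneg_left h3
          positivity
  -- the geometric sums
  have hls : (2 : ℝ) ≤ l ^ s := by
    calc (2 : ℝ) ≤ l := hl.le
      _ = l ^ 1 := (pow_one l).symm
      _ ≤ l ^ s := pow_le_pow_right₀ (by linarith) hs
  have h5 : ∀ j : ℕ, l ^ (((s * j : ℕ) : ℤ) - c) = (l ^ c)⁻¹ * (l ^ s) ^ j := by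
    intro j
    rw [zpow_sub₀ hl0.ne', zpow_natCast, zpow_natCast, pow_mul]
    field_simp
  have h6 : ∀ j : ℕ, l ^ (-(((s * j : ℕ) : ℤ) - c)) = l ^ c * ((l ^ s)⁻¹) ^ j := by
    intro j
    rw [neg_sub, zpow_sub₀ hl0.ne', zpow_natCast, zpow_natCast, pow_mul, inv_pow]
    field_simp
  have h7 : ∑ j ∈ Finset.range (J' + 1), C0 * R * (l ^ (((s * j : ℕ) : ℤ) - c) +
      l ^ (-(((s * j : ℕ) : ℤ) - c))) ≤ C0 * R * (4 * l ^ (M - c)) := by
    rw [← Finset.mul_sum]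
    apply mul_le_mul_of_nonneg_left _ (by positivity)
    rw [Finset.sum_add_distrib]
    simp only [h5, h6]
    rw [← Finset.mul_sum, ← Finset.mul_sum]
    have g1 := GEO_geo1 hls J'
    have g2 := GEO_geo2 hls J'
    have g3 : 0 < ((l ^ s)⁻¹) ^ J' := by positivity
    have g4 : (l ^ c)⁻¹ * (l ^ s) ^ J' = l ^ (M - c) := by
      rw [← pow_mul, ← hM]
      rw [pow_sub₀ _ hl0.ne' hcM]
      ring
    have g5 : l ^ c ≤ l ^ (M - c) := pow_le_pow_right₀ (by linarith) hcc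
    have g6 : (l ^ c)⁻¹ * ∑ j ∈ Finset.range (J' + 1), (l ^ s) ^ j ≤ 2 * l ^ (M - c) := by
      calc (l ^ c)⁻¹ * ∑ j ∈ Finset.range (J' + 1), (l ^ s) ^ j
          ≤ (l ^ c)⁻¹ * (2 * (l ^ s) ^ J') := by
            apply mul_le_mul_of_nonneg_left g1
            positivity
        _ = 2 * ((l ^ c)⁻¹ * (l ^ s) ^ J') := by ring
        _ = _ := by rw [g4]
    have g7 : l ^ c * ∑ j ∈ Finset.range (J' + 1), ((l ^ s)⁻¹) ^ j ≤ 2 * l ^ (M - c) := by
      calc l ^ c * ∑ j ∈ Finset.range (J' + 1), ((l ^ s)⁻¹) ^ j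
          ≤ l ^ c * 2 := by
            apply mul_le_mul_of_nonneg_left _ (by positivity)
            linarith
        _ ≤ _ := by linarith
    linarith
  have h8 := h1.trans h7
  have h9 : (l ^ (M - c)) ^ 2 ≤ l ^ (M + 1) := by
    rw [← pow_mul]
    apply pow_le_pow_right₀ (by linarith)
    omega
  calc ‖pw B (-(c : ℤ)) (∑ j ∈ Finset.range (J' + 1), pw B ((s * j : ℕ) : ℤ) (n j))‖ ^ 2
      ≤ (C0 * R * (4 * l ^ (M - c))) ^ 2 := by
        apply pow_le_pow_left₀ (norm_nonneg _) h8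
    _ = 16 * C0 ^ 2 * R ^ 2 * (l ^ (M - c)) ^ 2 := by ring
    _ ≤ 16 * C0 ^ 2 * R ^ 2 * l ^ (M + 1) := by
        apply mul_le_mul_of_nonneg_left h9
        positivity

end

end Pool.Agent.QS
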