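import Pool.Agent.helper4.QS.Spec

/-!
# QS: module UNQ (uniqueness modulo `N`)
-/

open scoped BigOperators

namespace Pool.Agent.QS

open Pool.Agent.helper86.CM

noncomputable section

theorem UNQ_dv {N : ℕ} (B : Lat 1 ≃ₗ[ℤ] Lat 1) (e : ℤ) {z : Lat 1} (h : Dv N z) :
    Dv N (pw B e z) := by
  obtain ⟨z', rfl⟩ := h
  exact ⟨pw B e z', pw_smul B e _ _⟩

/-- The sum of the sites. -/
theorem UNQ_sum (B : Lat 1 ≃ₗ[ℤ] Lat 1) (s J r : ℕ) (g : ℕ → PP) :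
    ∑ j ∈ Finset.range J, site B s (s * J) r j (g j) =
      pw B (r : ℤ) ((∑ j ∈ Finset.range J, pw B ((s * j : ℕ) : ℤ) (g j).1) +
        pw B ((s * J : ℕ) : ℤ) (∑ j ∈ Finset.range J, pw B ((s * j : ℕ) : ℤ) (g j).2)) := by
  rw [map_sum (pw B ((s * J : ℕ) : ℤ)), ← Finset.sum_add_distrib, map_sum]
  refine Finset.sum_congr rfl fun j _ => ?_
  rw [site_apply]
  have e1 : ((s * j + r : ℕ) : ℤ) = (r : ℤ) + ((s * j : ℕ) : ℤ) := by push_cast; ring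
  rw [e1, pw_add, map_add (pw B ((s * j : ℕ) : ℤ))]
  congr 2
  rw [← pw_add, ← pw_add, add_comm]

/-- UNQ. -/
theorem UNQ (hA : LUA_stmt) (hQ : LUQ_stmt) (hP : LUP_stmt) (hL : LUL_stmt) (hU : UN1_stmt)
    (hG : GEO_stmt) (hLC : LACL_stmt) : UNQ_stmt := by
  intro B t hB
  obtain ⟨CG, hCG1, hCG⟩ := hG B t hB
  obtain ⟨CL, hCL1, hCL⟩ := hLC B t hB
  obtain ⟨⟨hl2, -, -⟩, -, hlN, -⟩ := hL t hB.lt
  set l := lam t with hldef
  have hl0 : (0 : ℝ) < l := by linarith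
  have ht2 : (2 : ℝ) < t := by exact_mod_cast hB.lt
  refine ⟨4 * t * CG * l ^ 2 + CL, by nlinarith [mul_pos (mul_pos (by linarith : (0:ℝ) < 4 * t) (by linarith : (0:ℝ) < CG)) (pow_pos hl0 2)], ?_⟩
  intro s J r N R hs hJ hR hNlu hC g hg hdv
  have hpos : 0 < 4 * (t : ℝ) * CG * l ^ 2 := by positivity
  have hC1 : 4 * t * CG * l ^ 2 * R ^ 2 ≤ l ^ s := by nlinarith [sq_nonneg R]
  have hC2 : CL * (R ^ 2 + 1) ≤ l ^ s := by nlinarith [sq_nonneg R]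
  have hn : ∀ j < J, ‖(g j).1‖ ≤ R := fun j hj => (norm_fst_le (g j)).trans (hg j hj)
  have hm : ∀ j < J, ‖(g j).2‖ ≤ R := fun j hj => (norm_snd_le (g j)).trans (hg j hj)
  set S : Lat 1 := ∑ j ∈ Finset.range J, pw B ((s * j : ℕ) : ℤ) (g j).1 with hS
  set Y : Lat 1 := ∑ j ∈ Finset.range J, pw B ((s * j : ℕ) : ℤ) (g j).2 with hY
  rw [UNQ_sum] at hdv
  have hdv1 : Dv N (S + pw B ((s * J : ℕ) : ℤ) Y) := by
    have := UNQ_dv B (-(r : ℤ)) hdv
    rwa [pw_neg_pw] at this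
  obtain ⟨c, hc⟩ := hCG s J hs hJ
  have hw := hc R (fun j => (g j).1) hR hn
  have hy := hc R (fun j => (g j).2) hR hm
  rw [← hS] at hw
  rw [← hY] at hy
  set w : Lat 1 := pw B (-c) S with hwdef
  set y : Lat 1 := pw B (-c) Y with hydef
  have hdv2 : Dv N (w + pw B ((s * J : ℕ) : ℤ) y) := by
    have := UNQ_dv B (-c) hdv1
    rw [map_add, ← pw_add, add_comm (-c), pw_add] at this
    exact this
  obtain ⟨k', hk'⟩ : ∃ k', s * J = k' + 1 := ⟨s * J - 1, by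
    have : 1 ≤ s * J := Nat.one_le_iff_ne_zero.mpr (by positivity)
    omega⟩
  obtain ⟨z', hz'⟩ := hdv2
  have hNk : (N : ℤ) = lu t (k' + 1) := by rw [hNlu, hk']
  rw [hk', hA B t hB k' y, ← hNk] at hz'
  -- numerical facts
  obtain ⟨hp0, hplt⟩ := hP t hB.lt k'
  have hquad := hQ t k'
  rw [← hNk] at hquad hplt
  have hNpos : (0 : ℤ) < N := lt_of_le_of_lt hp0 hplt
  have hNge : l ^ k' ≤ (N : ℝ) := by
    have := (hlN k').1
    rw [← hNk] at this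
    exact_mod_cast this
  have hexp : l ^ (s * (J - 1) + 1) * l ^ 2 * l ^ s = l ^ k' * l ^ 4 := by
    rw [← pow_add, ← pow_add, ← pow_add]
    congr 1
    have : s * (J - 1) + s = s * J := by
      obtain ⟨J', rfl⟩ : ∃ J', J = J' + 1 := ⟨J - 1, by omega⟩
      simp only [Nat.add_sub_cancel]
      ring
    omega
  have hexp2 : l ^ (s * (J - 1) + 1) * l ^ s = l ^ k' * l ^ 2 := by
    rw [← pow_add, ← pow_add]
    congr 1
    have : s * (J - 1) + s = s * J := by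
      obtain ⟨J', rfl⟩ : ∃ J', J = J' + 1 := ⟨J - 1, by omega⟩
      simp only [Nat.add_sub_cancel]
      ring
    omega
  have key : 4 * (t : ℝ) * (CG * R ^ 2 * l ^ (s * (J - 1) + 1)) ≤ N := by
    have h1 : 4 * t * CG * l ^ 2 * R ^ 2 * l ^ (s * (J - 1) + 1) ≤ l ^ s * l ^ (s * (J - 1) + 1) :=
      mul_le_mul_of_nonneg_right hC1 (by positivity)
    have h2 : l ^ s * l ^ (s * (J - 1) + 1) = l ^ k' * l ^ 2 := by rw [mul_comm, hexp2]
    have h3 : 4 * t * CG * R ^ 2 * l ^ (s * (J - 1) + 1) * l ^ 2 ≤ l ^ k' * l ^ 2 := by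
      calc 4 * t * CG * R ^ 2 * l ^ (s * (J - 1) + 1) * l ^ 2
          = 4 * t * CG * l ^ 2 * R ^ 2 * l ^ (s * (J - 1) + 1) := by ring
        _ ≤ _ := h1
        _ = _ := h2
    have h4 := le_of_mul_le_mul_right h3 (by positivity : (0 : ℝ) < l ^ 2)
    calc 4 * (t : ℝ) * (CG * R ^ 2 * l ^ (s * (J - 1) + 1))
        = 4 * t * CG * R ^ 2 * l ^ (s * (J - 1) + 1) := by ring
      _ ≤ l ^ k' := h4
      _ ≤ N := hNge
  have hcoord : ∀ (v : Lat 1), ‖v‖ ^ 2 ≤ CG * R ^ 2 * l ^ (s * (J - 1) + 1) →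
      ∀ i, 4 * t * (v i) ^ 2 ≤ (N : ℤ) := by
    intro v hv i
    have h1 : ‖v i‖ ≤ ‖v‖ := norm_le_pi_norm v i
    have h2 : ((v i : ℤ) : ℝ) ^ 2 ≤ ‖v‖ ^ 2 := by
      rw [← sq_abs, ← Int.norm_eq_abs]
      exact pow_le_pow_left₀ (norm_nonneg _) h1 2
    have h3 : 4 * (t : ℝ) * ((v i : ℤ) : ℝ) ^ 2 ≤ (N : ℝ) := by
      refine le_trans ?_ key
      apply mul_le_mul_of_nonneg_left (h2.trans hv)
      linarith
    exact_mod_cast h3
  have hboth : ∀ i, w i = 0 ∧ y i = 0 := by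
    intro i
    have hz := congrFun hz' i
    simp only [Pi.add_apply, Pi.sub_apply, Pi.smul_apply, smul_eq_mul] at hz
    exact hU t hB.lt (N : ℤ) (lu t k') (w i) (y i) (z' i - (B y) i) hNpos hp0 hplt.le
      (by linarith) (by linarith) (hcoord w hw i) (hcoord y hy i)
  have hw0 : w = 0 := funext fun i => (hboth i).1
  have hy0 : y = 0 := funext fun i => (hboth i).2
  have hS0 : S = 0 := by
    have : pw B c w = S := by rw [hwdef, pw_pw_neg]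
    rw [← this, hw0, map_zero]
  have hY0 : Y = 0 := by
    have : pw B c y = Y := by rw [hydef, pw_pw_neg]
    rw [← this, hy0, map_zero]
  intro j hj
  have h1 := hCL s J R hs hR hC2 (fun j => (g j).1) hn hS0 j hj
  have h2 := hCL s J R hs hR hC2 (fun j => (g j).2) hm hY0 j hj
  exact Prod.ext h1 h2

end

end Pool.Agent.QS
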